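import Pool.Agent.Helper62.EF.Stmts

/-!
# Sheet EF, row EX (second copy)
-/

set_option autoImplicit false

namespace Pool.Agent.Helper9.EF

open Pool.Agent.Helper62.EF

theorem tt_map {G : Type} [AddCommGroup G] (φ : G →+ G) {x : G} (hx : x ∈ tt φ) :
    φ x ∈ tt φ := by
  have hx' : (Set.range fun i : ℕ => φ^[i] x).Finite := hx
  refine (hx'.subset ?_ : (Set.range fun i : ℕ => φ^[i] (φ x)).Finite)
  rintro _ ⟨i, rfl⟩
  exact ⟨i + 1, by simp [Function.iterate_succ_apply]⟩

theorem tt_iter {G : Type} [AddCommGroup G] (φ : G →+ G) {x : G} (hx : x ∈ tt φ) (i : ℕ) :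
    φ^[i] x ∈ tt φ := by
  induction i generalizing x with
  | zero => simpa using hx
  | succ i ih => rw [Function.iterate_succ_apply]; exact ih (tt_map φ hx)

theorem ev_sub {G : Type} [AddCommGroup G] (φ : G →+ G) (n : ℕ) (c : ℕ → ℤ) (x y : G) :
    ev φ n c (x - y) = ev φ n c x - ev φ n c y := by
  simp only [ev, ← Finset.sum_sub_distrib, ← smul_sub]
  refine Finset.sum_congr rfl fun i _ => ?_
  rw [iterate_map_sub]

theorem ev_dvd {G : Type} [AddCommGroup G] (φ : G →+ G) (p n : ℕ) (c : ℕ → ℤ) (z : G)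
    (hz : p • z ∈ tt φ) (hc : ∀ i < n, (p : ℤ) ∣ c i) : ev φ n c z ∈ tt φ := by
  refine AddSubgroup.sum_mem _ fun i hi => ?_
  obtain ⟨k, hk⟩ := hc i (Finset.mem_range.1 hi)
  have h : c i • φ^[i] z = k • φ^[i] (p • z) := by
    rw [hk, iterate_map_nsmul, mul_comm, mul_smul, natCast_zsmul]
  rw [h]
  exact AddSubgroup.zsmul_mem _ (tt_iter φ hz i) k

theorem st_EX (h : ST_TF) : ST_EX := by
  intro G _ φ m hm hmx p hp hunc N
  induction N with
  | zero => exact ⟨Fin.elim0, fun j => j.elim0, fun n c _ j => j.elim0⟩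
  | succ N ih =>
    obtain ⟨x, hx1, hx2⟩ := ih
    by_contra hno
    apply hunc
    let ext : (n : ℕ) → (Fin n → ℤ) → ℕ → ℤ := fun n c i => if h : i < n then c ⟨i, h⟩ else 0
    let S : (Σ n : ℕ, (Fin (N + 1) → Fin n → ℤ)) → Set (G ⧸ tt φ) := fun d =>
      {q | ∃ z : G, (z : G ⧸ tt φ) = q ∧ p • z ∈ tt φ ∧
        (ev φ d.1 (ext d.1 (d.2 0)) z + ∑ j, ev φ d.1 (ext d.1 (d.2 (Fin.succ j))) (x j)) ∈ tt φ ∧
        ∃ i < d.1, ¬ (p : ℤ) ∣ ext d.1 (d.2 0) i}
    have hS : ∀ d, (S d).Subsingleton := by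
      rintro d _ ⟨z, rfl, hz1, hz2, hz3⟩ _ ⟨w, rfl, hw1, hw2, hw3⟩
      have hsub : z - w ∈ tt φ := by
        refine h G φ m hm hmx p hp (z - w) d.1 (ext d.1 (d.2 0)) ?_ ?_ hz3
        · rw [smul_sub]; exact sub_mem hz1 hw1
        · rw [ev_sub]
          have h3 := sub_mem hz2 hw2
          rwa [add_sub_add_right_eq_sub] at h3
      exact (QuotientAddGroup.eq_iff_sub_mem).2 hsub
    have hcov : {q : G ⧸ tt φ | p • q = 0} ⊆ ⋃ d, S d := by
      intro q hq
      obtain ⟨z, rfl⟩ := QuotientAddGroup.mk_surjective q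
      have hz : p • z ∈ tt φ := by
        rw [← QuotientAddGroup.eq_zero_iff]
        simpa using hq
      have hnI : ¬ Ind φ p (N + 1) (Fin.cons z x : Fin (N + 1) → G) := fun hI => hno ⟨_, hI⟩
      unfold Ind at hnI
      rw [not_and] at hnI
      have h1 : ∀ j : Fin (N + 1), p • (Fin.cons z x : Fin (N + 1) → G) j ∈ tt φ := by
        intro j
        refine Fin.cases ?_ (fun j => ?_) j
        · simpa using hz
        · simpa using hx1 j
      have h2 := hnI h1
      push Not at h2
      obtain ⟨n, c, hc, j0, i0, hi0, hj0⟩ := h2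
      rw [Fin.sum_univ_succ] at hc
      simp only [Fin.cons_zero, Fin.cons_succ] at hc
      have hA : ∃ i < n, ¬ (p : ℤ) ∣ c 0 i := by
        by_contra hA
        push Not at hA
        have h3 := ev_dvd φ p n (c 0) z hz hA
        have h4 : ∑ j : Fin N, ev φ n (c j.succ) (x j) ∈ tt φ := by
          have := sub_mem hc h3
          rwa [add_sub_cancel_left] at this
        have h5 := hx2 n (fun j => c j.succ) h4
        refine hj0 ?_
        revert hi0
        refine Fin.cases ?_ (fun j => ?_) j0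
        · intro hi; exact hA i0 hi
        · intro hi; exact h5 j i0 hi
      have hext : ∀ (j : Fin (N + 1)) (i : ℕ), i < n →
          ext n (fun i : Fin n => c j i) i = c j i := by
        intro j i hi
        simp [ext, hi]
      have hev : ∀ (j : Fin (N + 1)) (y : G),
          ev φ n (ext n (fun i : Fin n => c j i)) y = ev φ n (c j) y := by
        intro j y
        refine Finset.sum_congr rfl fun i hi => ?_
        rw [hext j i (Finset.mem_range.1 hi)]
      refine Set.mem_iUnion.2 ⟨⟨n, fun j i => c j i⟩, z, rfl, hz, ?_, ?_⟩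
      · simp only [hev]
        exact hc
      · obtain ⟨i, hi, hi2⟩ := hA
        exact ⟨i, hi, by simp only [hext 0 i hi]; exact hi2⟩
    exact (Set.countable_iUnion fun d => (hS d).countable).mono hcov

end Pool.Agent.Helper9.EF
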